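import Mathlib

set_option autoImplicit false

namespace RankOneC

open Set Metric Filter Topology

/-- one step of an `h`-chain inside the superlevel set `{t < ‖f‖}` -/
def CStep (f : ℂ → ℂ) (t h : ℝ) (a b : ℂ) : Prop := dist a b < h ∧ t < ‖f b‖

theorem reach_unbounded {f : ℂ → ℂ} (hf : Differentiable ℂ f) {z0 : ℂ} {t h : ℝ}
    (ht : t < ‖f z0‖) (hh : 0 < h) (lam : ℂ) (R : ℝ) :
    ∃ w, Relation.ReflTransGen (CStep f t h) z0 w ∧ R < dist w lam := by
  by_contra hcon
  push Not at hcon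
  set U : Set ℂ := {w | Relation.ReflTransGen (CStep f t h) z0 w} with hU
  have hz0 : z0 ∈ U := Relation.ReflTransGen.refl
  have hUb : U ⊆ closedBall lam R := fun w hw => hcon w hw
  have hstep : ∀ w ∈ U, ∀ b, dist w b < h → t < ‖f b‖ → b ∈ U := fun w hw b h1 h2 =>
    Relation.ReflTransGen.tail hw ⟨h1, h2⟩
  have hcl : IsCompact (closure U) :=
    (isCompact_closedBall lam R).of_isClosed_subset isClosed_closure
      (closure_minimal hUb isClosed_closedBall)
  obtain ⟨zs, hzs, hmax⟩ := hcl.exists_isMaxOn ⟨z0, subset_closure hz0⟩ hf.continuous.norm.continuousOn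
  have hzst : t < ‖f zs‖ := ht.trans_le (hmax (subset_closure hz0))
  have hzsU : zs ∈ U := by
    obtain ⟨w, hw, hd⟩ := Metric.mem_closure_iff.1 hzs h hh
    exact hstep w hw zs (by rwa [dist_comm]) hzst
  have hloc : IsLocalMax (norm ∘ f) zs := by
    have : ∀ᶠ z in 𝓝 zs, dist z zs < h := Metric.ball_mem_nhds zs hh
    filter_upwards [this] with z hz
    by_cases h1 : t < ‖f z‖
    · exact hmax (subset_closure (hstep zs hzsU z (by rwa [dist_comm]) h1))
    · push Not at h1
      exact h1.trans hzst.le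
  have hev : ∀ᶠ y in 𝓝 zs, f y = f zs :=
    Complex.eventually_eq_of_isLocalMax_norm (Filter.Eventually.of_forall fun z => hf z) hloc
  have hconst : f = fun _ => f zs := by
    have hfa : AnalyticOnNhd ℂ f univ := fun z _ => hf.analyticAt z
    have hca : AnalyticOnNhd ℂ (fun _ : ℂ => f zs) univ := fun z _ => analyticAt_const
    exact hfa.eq_of_eventuallyEq hca hev
  have hUall : U = univ := by
    apply IsClopen.eq_univ _ ⟨z0, hz0⟩
    have hall : ∀ b, t < ‖f b‖ := fun b => by rw [hconst]; exact hzst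
    constructor
    · apply isClosed_of_closure_subset
      intro b hb
      obtain ⟨w, hw, hd⟩ := Metric.mem_closure_iff.1 hb h hh
      exact hstep w hw b (by rwa [dist_comm]) (hall b)
    · rw [Metric.isOpen_iff]
      intro w hw
      exact ⟨h, hh, fun b hb => hstep w hw b (by rw [mem_ball, dist_comm] at hb; exact hb) (hall b)⟩
  have h1 : lam + (R + 1 : ℝ) ∈ U := by rw [hUall]; trivial
  have h2 := hUb h1
  rw [mem_closedBall, dist_eq_norm, add_sub_cancel_left, Complex.norm_real, Real.norm_eq_abs] at h2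
  have h3 := le_abs_self (R + 1)
  linarith

/-- A reachable point is the end of a finite sequence. -/
theorem reach_seq {f : ℂ → ℂ} {z0 w : ℂ} {t h : ℝ} (ht : t < ‖f z0‖)
    (hw : Relation.ReflTransGen (CStep f t h) z0 w) :
    ∃ (n : ℕ) (z : ℕ → ℂ), z 0 = z0 ∧ z n = w ∧ (∀ i < n, dist (z i) (z (i + 1)) < h) ∧
      ∀ i ≤ n, t < ‖f (z i)‖ := by
  induction hw with
  | refl => exact ⟨0, fun _ => z0, rfl, rfl, fun i hi => absurd hi (Nat.not_lt_zero i),
      fun i _ => ht⟩
  | @tail b c hb hbc ih =>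
    obtain ⟨n, z, h0, hn, h1, h2⟩ := ih
    refine ⟨n + 1, fun i => if i ≤ n then z i else c, by simp [h0], by simp, ?_, ?_⟩
    · intro i hi
      rcases Nat.lt_succ_iff_lt_or_eq.1 hi with h | h
      · have e1 : i ≤ n := h.le
        have e2 : i + 1 ≤ n := h
        simp only [e1, e2, if_true]
        exact h1 i h
      · subst h
        have e2 : ¬ (i + 1 ≤ i) := by omega
        simp only [le_refl, e2, if_true, if_false]
        rw [hn]
        exact hbc.1
    · intro i hi
      by_cases e : i ≤ n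
      · simp only [e, if_true]; exact h2 i e
      · simp only [e, if_false]; exact hbc.2

/-- **Chains in superlevel sets of entire functions leave every disc.** -/
theorem exists_chain {f : ℂ → ℂ} (hf : Differentiable ℂ f) {z0 : ℂ} {t h : ℝ}
    (ht : t < ‖f z0‖) (hh : 0 < h) (lam : ℂ) (R : ℝ) :
    ∃ (n : ℕ) (z : ℕ → ℂ), z 0 = z0 ∧ (∀ i < n, dist (z i) (z (i + 1)) < h) ∧
      (∀ i ≤ n, t < ‖f (z i)‖) ∧ R < dist (z n) lam := by
  obtain ⟨w, hw, hR⟩ := reach_unbounded hf ht hh lam R
  obtain ⟨n, z, h0, hn, h1, h2⟩ := reach_seq ht hw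
  exact ⟨n, z, h0, h1, h2, by rw [hn]; exact hR⟩

/-- Polynomial version. -/
theorem exists_chain_poly (p : Polynomial ℂ) {z0 : ℂ} {t h : ℝ}
    (ht : t < ‖p.eval z0‖) (hh : 0 < h) (lam : ℂ) (R : ℝ) :
    ∃ (n : ℕ) (z : ℕ → ℂ), z 0 = z0 ∧ (∀ i < n, dist (z i) (z (i + 1)) < h) ∧
      (∀ i ≤ n, t < ‖p.eval (z i)‖) ∧ R < dist (z n) lam :=
  exists_chain (f := fun z => p.eval z) p.differentiable ht hh lam R

end RankOneC
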