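import Mathlib

set_option autoImplicit false

namespace RankOneC

open MeasureTheory Set Metric Real

/-- Jensen's inequality: `log ‖f a‖` is at most the circle average of `log ‖f‖`. -/
theorem log_norm_le_circleAverage {f : ℂ → ℂ} {a : ℂ} {r : ℝ} (hr : 0 < r)
    (hf : AnalyticOnNhd ℂ f (closedBall a r)) (ha : f a ≠ 0) :
    Real.log ‖f a‖ ≤ circleAverage (Real.log ‖f ·‖) a r := by
  have hf' : AnalyticOnNhd ℂ f (closedBall a |r|) := by rwa [abs_of_pos hr]
  rw [AnalyticOnNhd.circleAverage_log_norm hr.ne' hf' ha]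
  have : 0 ≤ ∑ᶠ u, (MeromorphicOn.divisor f (closedBall a |r|) u : ℝ) * Real.log (r * ‖a - u‖⁻¹) := by
    apply finsum_nonneg
    intro u
    by_cases hu : u ∈ closedBall a |r|
    · apply mul_nonneg
      · have := MeromorphicOn.AnalyticOnNhd.divisor_nonneg hf' u
        exact_mod_cast this
      · by_cases h0 : ‖a - u‖ = 0
        · simp [h0]
        · have h1 : 0 < ‖a - u‖ := lt_of_le_of_ne (norm_nonneg _) (Ne.symm h0)
          apply Real.log_nonneg
          rw [← div_eq_mul_inv, le_div_iff₀ h1, one_mul]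
          rw [mem_closedBall, dist_comm, dist_eq_norm, abs_of_pos hr] at hu
          exact hu
    · have : MeromorphicOn.divisor f (closedBall a |r|) u = 0 := by
        simp [hu]
      rw [this]; simp
  linarith

/-- Jensen on one circle: the set of angles at which `‖f‖ < τ` is small. -/
theorem circle_bad {f : ℂ → ℂ} {a : ℂ} {r : ℝ} (hr : 0 < r)
    (hf : AnalyticOnNhd ℂ f (closedBall a r)) {t τ Mp : ℝ} (hτ : 0 < τ) (hτt : τ < t)
    (hta : t ≤ ‖f a‖) (hM : ∀ z ∈ closedBall a r, ‖f z‖ ≤ Mp) :
    (volume.real {θ : ℝ | θ ∈ Ioo (-π) π ∧ ‖f (circleMap a r θ)‖ < τ}) * Real.log (Mp / τ)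
      ≤ 2 * π * Real.log (Mp / t) := by
  have ht : 0 < t := hτ.trans hτt
  have hMt : t ≤ Mp := hta.trans (hM a (mem_closedBall_self hr.le))
  have hMp : 0 < Mp := ht.trans_le hMt
  set L := Real.log (Mp / τ) with hL
  have hLpos : 0 < L := Real.log_pos (by rw [lt_div_iff₀ hτ]; linarith)
  set g : ℂ → ℂ := fun z => f z / τ with hg
  have hgn : ∀ z, ‖g z‖ = ‖f z‖ / τ := fun z => by
    simp [hg, abs_of_pos hτ]
  have hgan : AnalyticOnNhd ℂ g (closedBall a r) := fun z hz => (hf z hz).div_const
  have hga : g a ≠ 0 := by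
    rw [← norm_ne_zero_iff, hgn]
    have : 0 < ‖f a‖ := ht.trans_le hta
    positivity
  have hJ := log_norm_le_circleAverage hr hgan hga
  have hcm : ∀ θ, circleMap a r θ ∈ closedBall a r := fun θ => circleMap_mem_closedBall a hr.le θ
  have hcont : Continuous fun θ => f (circleMap a r θ) :=
    hf.continuousOn.comp_continuous (continuous_circleMap a r) hcm
  set u : ℝ → ℝ := fun θ => Real.log ‖g (circleMap a r θ)‖ with hu
  have huint : IntervalIntegrable u volume 0 (2 * π) := by
    have h1 : MeromorphicOn g (sphere a |r|) := by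
      rw [abs_of_pos hr]
      exact (hgan.mono sphere_subset_closedBall).meromorphicOn
    exact h1.circleIntegrable_log_norm
  have hper : Function.Periodic u (2 * π) := fun θ => by
    simp only [hu]
    rw [periodic_circleMap a r θ]
  have huint2 : IntervalIntegrable u volume (-π) π := by
    have := hper.intervalIntegrable₀ (by positivity) huint (-π) π
    exact this
  have hint : ∫ θ in (-π)..π, u θ = ∫ θ in (0:ℝ)..(2 * π), u θ := by
    have h := hper.intervalIntegral_add_eq (-π) 0
    have e1 : -π + 2 * π = π := by ring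
    rw [e1, zero_add] at h
    exact h
  have havg : circleAverage (Real.log ‖g ·‖) a r = (2 * π)⁻¹ * ∫ θ in (0:ℝ)..(2 * π), u θ := by
    rw [Real.circleAverage, smul_eq_mul]
  have hle1 : 2 * π * Real.log (t / τ) ≤ ∫ θ in (-π)..π, u θ := by
    rw [hint]
    have h1 : Real.log (t / τ) ≤ Real.log ‖g a‖ := by
      rw [hgn]
      apply Real.log_le_log (by positivity)
      gcongr
    rw [havg] at hJ
    have h2 : Real.log (t / τ) ≤ (2 * π)⁻¹ * ∫ θ in (0:ℝ)..(2 * π), u θ := h1.trans hJ
    calc 2 * π * Real.log (t / τ) ≤ 2 * π * ((2 * π)⁻¹ * ∫ θ in (0:ℝ)..(2 * π), u θ) := by gcongr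
      _ = ∫ θ in (0:ℝ)..(2 * π), u θ := by
        rw [← mul_assoc, mul_inv_cancel₀ (by positivity), one_mul]
  have huL : ∀ θ, u θ ≤ L := fun θ => by
    simp only [hu]
    by_cases h0 : ‖g (circleMap a r θ)‖ = 0
    · rw [h0, Real.log_zero]; exact hLpos.le
    · have h1 : 0 < ‖g (circleMap a r θ)‖ := lt_of_le_of_ne (norm_nonneg _) (Ne.symm h0)
      apply Real.log_le_log h1
      rw [hgn]
      have := hM _ (hcm θ)
      gcongr
  set Z : Set ℝ := {θ : ℝ | θ ∈ Ioo (-π) π ∧ ‖f (circleMap a r θ)‖ < τ} with hZ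
  have hZm : MeasurableSet Z := by
    have : IsOpen Z := isOpen_Ioo.inter (isOpen_lt hcont.norm continuous_const)
    exact this.measurableSet
  have hZsub : Z ⊆ Ioc (-π) π := fun θ h => Ioo_subset_Ioc_self h.1
  have hZfin : volume Z ≠ ⊤ := ((measure_mono hZsub).trans_lt (by simp)).ne
  have huIoc : IntegrableOn u (Ioc (-π) π) := by
    rwa [intervalIntegrable_iff_integrableOn_Ioc_of_le (by linarith [pi_pos])] at huint2
  have hLint : IntegrableOn (fun θ => L - u θ) (Ioc (-π) π) := by
    apply Integrable.sub _ huIoc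
    exact integrableOn_const (by simp)
  have h1 : ∫ θ in Z, (L - u θ) ≤ ∫ θ in Ioc (-π) π, (L - u θ) := by
    apply setIntegral_mono_set hLint
    · filter_upwards with θ
      simp only [Pi.zero_apply]
      linarith [huL θ]
    · exact hZsub.eventuallyLE
  have h2 : volume.real Z * L ≤ ∫ θ in Z, (L - u θ) := by
    have h3 : ∫ θ in Z, L ≤ ∫ θ in Z, (L - u θ) := by
      apply setIntegral_mono_on (integrableOn_const hZfin) (hLint.mono_set hZsub) hZm
      intro θ hθ
      have : u θ ≤ 0 := by
        simp only [hu]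
        apply Real.log_nonpos (norm_nonneg _)
        rw [hgn, div_le_one hτ]
        exact hθ.2.le
      linarith
    rw [setIntegral_const, smul_eq_mul] at h3
    exact h3
  have h3 : ∫ θ in Ioc (-π) π, (L - u θ) = 2 * π * L - ∫ θ in (-π)..π, u θ := by
    have hc : IntegrableOn (fun _ : ℝ => L) (Ioc (-π) π) := integrableOn_const (by simp)
    rw [integral_sub hc huIoc, setIntegral_const,
      intervalIntegral.integral_of_le (by linarith [pi_pos])]
    congr 1
    simp only [smul_eq_mul]
    rw [Real.volume_real_Ioc_of_le (by linarith [pi_pos])]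
    ring
  have h4 : Real.log (Mp / t) = L - Real.log (t / τ) := by
    rw [hL, Real.log_div hMp.ne' hτ.ne', Real.log_div hMp.ne' ht.ne', Real.log_div ht.ne' hτ.ne']
    ring
  rw [h4]
  nlinarith [h1, h2, h3, hle1]

/-- **Jensen area lemma.** -/
theorem area_bad_mul {f : ℂ → ℂ} {a : ℂ} {ρ : ℝ} (hρ : 0 < ρ)
    (hf : AnalyticOnNhd ℂ f (closedBall a ρ)) {t τ Mp : ℝ} (hτ : 0 < τ) (hτt : τ < t)
    (hta : t ≤ ‖f a‖) (hM : ∀ z ∈ closedBall a ρ, ‖f z‖ ≤ Mp) :
    volume {z : ℂ | z ∈ ball a ρ ∧ ‖f z‖ < τ}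
      ≤ ENNReal.ofReal (Real.log (Mp / t) / Real.log (Mp / τ) * (π * ρ ^ 2)) := by
  have ht : 0 < t := hτ.trans hτt
  have hMt : t ≤ Mp := hta.trans (hM a (mem_closedBall_self hρ.le))
  have hMp : 0 < Mp := ht.trans_le hMt
  set L := Real.log (Mp / τ) with hL
  have hLpos : 0 < L := Real.log_pos (by rw [lt_div_iff₀ hτ]; linarith)
  have hl0 : 0 ≤ Real.log (Mp / t) := Real.log_nonneg (by rw [le_div_iff₀ ht]; linarith)
  set Z : Set ℂ := {z : ℂ | z ∈ ball a ρ ∧ ‖f z‖ < τ} with hZ
  have hZo : IsOpen Z := by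
    have h1 : ContinuousOn (fun z => ‖f z‖) (ball a ρ) :=
      (hf.continuousOn.mono ball_subset_closedBall).norm
    have h2 := h1.isOpen_inter_preimage isOpen_ball (isOpen_Iio (a := τ))
    exact h2
  have hZm : MeasurableSet Z := hZo.measurableSet
  set K := Real.log (Mp / t) / L with hK
  have hK0 : 0 ≤ K := by positivity
  -- translate to the origin
  set Z0 : Set ℂ := (fun z => z + a) ⁻¹' Z with hZ0
  have hZ0m : MeasurableSet Z0 := hZm.preimage (by fun_prop)
  have hvol : volume Z = volume Z0 := by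
    rw [hZ0, measure_preimage_add_right]
  rw [hvol, ← lintegral_indicator_one hZ0m, ← Complex.lintegral_comp_polarCoord_symm]
  have hmeas : Measurable fun p : ℝ × ℝ =>
      ENNReal.ofReal p.1 • Z0.indicator (1 : ℂ → ENNReal) (Complex.polarCoord.symm p) := by
    have h1 : Measurable fun p : ℝ × ℝ => Complex.polarCoord.symm p := by
      simp only [Complex.polarCoord_symm_apply]
      fun_prop
    exact (ENNReal.measurable_ofReal.comp measurable_fst).smul
      ((measurable_one.indicator hZ0m).comp h1)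
  rw [polarCoord_target, Measure.volume_eq_prod, ← Measure.prod_restrict,
    lintegral_prod _ hmeas.aemeasurable]
  -- inner integral
  have hinner : ∀ r ∈ Ioi (0:ℝ), (∫⁻ θ in Ioo (-π) π,
      ENNReal.ofReal r • Z0.indicator (1 : ℂ → ENNReal) (Complex.polarCoord.symm (r, θ)))
        ≤ (Ioo 0 ρ).indicator (fun r => ENNReal.ofReal (2 * π * K * r)) r := by
    intro r hr
    have hr : 0 < r := hr
    by_cases hrρ : r < ρ
    · have hmemr : r ∈ Ioo 0 ρ := ⟨hr, hrρ⟩
      rw [indicator_of_mem hmemr]
      simp only [smul_eq_mul]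
      have hms : MeasurableSet {θ : ℝ | Complex.polarCoord.symm (r, θ) ∈ Z0} := by
        have h1 : Measurable fun θ : ℝ => Complex.polarCoord.symm (r, θ) := by
          simp only [Complex.polarCoord_symm_apply]
          fun_prop
        exact hZ0m.preimage h1
      rw [lintegral_const_mul' _ _ ENNReal.ofReal_ne_top]
      have e1 : (∫⁻ θ in Ioo (-π) π, Z0.indicator (1 : ℂ → ENNReal) (Complex.polarCoord.symm (r, θ)))
          = volume {θ : ℝ | θ ∈ Ioo (-π) π ∧ ‖f (circleMap a r θ)‖ < τ} := by
        have e2 : (fun θ : ℝ => Z0.indicator (1 : ℂ → ENNReal) (Complex.polarCoord.symm (r, θ)))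
            = {θ : ℝ | Complex.polarCoord.symm (r, θ) ∈ Z0}.indicator 1 := by
          ext θ
          by_cases h : Complex.polarCoord.symm (r, θ) ∈ Z0
          · rw [indicator_of_mem h, indicator_of_mem (by exact h)]; rfl
          · rw [indicator_of_notMem h, indicator_of_notMem (by exact h)]
        rw [e2, lintegral_indicator_one hms, Measure.restrict_apply hms]
        congr 1
        ext θ
        have e3 : Complex.polarCoord.symm (r, θ) + a = circleMap a r θ := by
          rw [Complex.polarCoord_symm_apply, circleMap, Complex.exp_mul_I]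
          simp only [Complex.ofReal_cos, Complex.ofReal_sin]
          ring
        have e4 : circleMap a r θ ∈ ball a ρ := by
          rw [mem_ball, dist_eq_norm]
          simp [circleMap, abs_of_pos hr, hrρ]
        constructor
        · rintro ⟨h1, h2⟩
          refine ⟨h2, ?_⟩
          have h3 : Complex.polarCoord.symm (r, θ) + a ∈ Z := h1
          rw [e3] at h3
          exact h3.2
        · rintro ⟨h1, h2⟩
          refine ⟨?_, h1⟩
          change Complex.polarCoord.symm (r, θ) + a ∈ Z
          rw [e3]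
          exact ⟨e4, h2⟩
      rw [e1]
      have hcb := circle_bad hr (hf.mono (closedBall_subset_closedBall hrρ.le)) hτ hτt hta
        (fun z hz => hM z (closedBall_subset_closedBall hrρ.le hz))
      set W : Set ℝ := {θ : ℝ | θ ∈ Ioo (-π) π ∧ ‖f (circleMap a r θ)‖ < τ} with hW
      have hWfin : volume W ≠ ⊤ := by
        have : W ⊆ Ioo (-π) π := fun θ h => h.1
        exact ((measure_mono this).trans_lt (by simp)).ne
      rw [← ENNReal.ofReal_toReal hWfin, ← ENNReal.ofReal_mul hr.le]
      apply ENNReal.ofReal_le_ofReal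
      have h5 : volume.real W ≤ 2 * π * K := by
        rw [hK, mul_div_assoc', le_div_iff₀ hLpos]
        exact hcb
      have h6 : (volume W).toReal = volume.real W := rfl
      rw [h6]
      nlinarith
    · have hnm : r ∉ Ioo 0 ρ := fun h => hrρ h.2
      rw [indicator_of_notMem hnm]
      have : ∀ θ : ℝ, Z0.indicator (1 : ℂ → ENNReal) (Complex.polarCoord.symm (r, θ)) = 0 := by
        intro θ
        apply indicator_of_notMem
        intro h
        have h3 : Complex.polarCoord.symm (r, θ) + a ∈ Z := h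
        have h4 := h3.1
        rw [mem_ball, dist_eq_norm, add_sub_cancel_right] at h4
        have h5 : ‖Complex.polarCoord.symm (r, θ)‖ = r := by
          rw [Complex.polarCoord_symm_apply]
          have : ((r, θ).1 : ℂ) * (((Real.cos (r, θ).2 : ℝ) : ℂ) + ((Real.sin (r, θ).2 : ℝ) : ℂ) * Complex.I)
              = r * Complex.exp (θ * Complex.I) := by
            rw [Complex.exp_mul_I]; simp
          rw [this, norm_mul, Complex.norm_exp_ofReal_mul_I, mul_one, Complex.norm_real,
            Real.norm_of_nonneg hr.le]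
        rw [h5] at h4
        exact hrρ h4
      simp only [this, smul_zero, lintegral_zero, le_refl]
  calc ∫⁻ r in Ioi (0:ℝ), ∫⁻ θ in Ioo (-π) π,
        ENNReal.ofReal (r, θ).1 • Z0.indicator (1 : ℂ → ENNReal) (Complex.polarCoord.symm (r, θ))
      ≤ ∫⁻ r in Ioi (0:ℝ), (Ioo 0 ρ).indicator (fun r => ENNReal.ofReal (2 * π * K * r)) r :=
        setLIntegral_mono' measurableSet_Ioi hinner
    _ ≤ ∫⁻ r, (Ioo 0 ρ).indicator (fun r => ENNReal.ofReal (2 * π * K * r)) r :=
        setLIntegral_le_lintegral _ _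
    _ = ∫⁻ r in Ioo 0 ρ, ENNReal.ofReal (2 * π * K * r) := lintegral_indicator measurableSet_Ioo _
    _ = ENNReal.ofReal (∫ r in Ioo 0 ρ, 2 * π * K * r) := by
        rw [ofReal_integral_eq_lintegral_ofReal]
        · exact (Continuous.integrableOn_Icc (by fun_prop)).mono_set Ioo_subset_Icc_self
        · filter_upwards [ae_restrict_mem measurableSet_Ioo] with r hr
          have := hr.1
          simp only [Pi.zero_apply]
          positivity
    _ = ENNReal.ofReal (K * (π * ρ ^ 2)) := by
        congr 1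
        rw [← integral_Ioc_eq_integral_Ioo, ← intervalIntegral.integral_of_le hρ.le,
          intervalIntegral.integral_const_mul, integral_id]
        ring

/-- **Jensen area lemma**, real form. -/
theorem area_bad {f : ℂ → ℂ} {a : ℂ} {ρ : ℝ} (hρ : 0 < ρ)
    (hf : AnalyticOnNhd ℂ f (closedBall a ρ)) {t τ Mp : ℝ} (hτ : 0 < τ) (hτt : τ < t)
    (hta : t ≤ ‖f a‖) (hM : ∀ z ∈ closedBall a ρ, ‖f z‖ ≤ Mp) :
    volume.real {z : ℂ | z ∈ ball a ρ ∧ ‖f z‖ < τ}
      ≤ Real.log (Mp / t) / Real.log (Mp / τ) * (π * ρ ^ 2) := by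
  have ht : 0 < t := hτ.trans hτt
  have hMt : t ≤ Mp := hta.trans (hM a (mem_closedBall_self hρ.le))
  have hLpos : 0 < Real.log (Mp / τ) := Real.log_pos (by rw [lt_div_iff₀ hτ]; linarith)
  have hl0 : 0 ≤ Real.log (Mp / t) := Real.log_nonneg (by rw [le_div_iff₀ ht]; linarith)
  have h := area_bad_mul hρ hf hτ hτt hta hM
  have h2 := ENNReal.toReal_mono ENNReal.ofReal_ne_top h
  rwa [ENNReal.toReal_ofReal (by positivity)] at h2

end RankOneC
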