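import Mathlib

set_option autoImplicit false

namespace RankOneC

open MeasureTheory Set Metric Real

theorem vol_closedBall (a : ℂ) {ρ : ℝ} (hρ : 0 ≤ ρ) :
    volume.real (closedBall a ρ) = π * ρ ^ 2 := by
  rw [Measure.real, Complex.volume_closedBall, ENNReal.toReal_mul, ENNReal.toReal_pow,
    ENNReal.toReal_ofReal hρ]
  simp [mul_comm]

theorem shift_integral (a : ℂ) (ρ : ℝ) (g : ℂ → ℝ) :
    ∫ z in closedBall a ρ, g (z - a) = ∫ z in closedBall (0:ℂ) ρ, g z := by
  have h := (measurePreserving_sub_right (volume : Measure ℂ) a).setIntegral_preimage_emb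
    (measurableEmbedding_subRight a) g (closedBall (0:ℂ) ρ)
  have e : (fun z : ℂ => z - a) ⁻¹' closedBall (0:ℂ) ρ = closedBall a ρ := by
    ext z; simp [dist_eq_norm]
  rw [← e]
  exact h

theorem neg_integral (ρ : ℝ) (g : ℂ → ℝ) :
    ∫ z in closedBall (0:ℂ) ρ, g (-z) = ∫ z in closedBall (0:ℂ) ρ, g z := by
  have h := (Measure.measurePreserving_neg (volume : Measure ℂ)).setIntegral_preimage_emb
    (MeasurableEquiv.neg ℂ).measurableEmbedding g (closedBall (0:ℂ) ρ)
  have e : (fun z : ℂ => -z) ⁻¹' closedBall (0:ℂ) ρ = closedBall 0 ρ := by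
    ext z; simp
  have e2 : (Neg.neg : ℂ → ℂ) ⁻¹' closedBall (0:ℂ) ρ = closedBall 0 ρ := e
  rw [e2] at h
  exact h

theorem integral_norm_disc {ρ : ℝ} (hρ : 0 ≤ ρ) :
    ∫ z in closedBall (0:ℂ) ρ, ‖z‖ = 2 * π * ρ ^ 3 / 3 := by
  have h := integral_fun_norm_addHaar (E := ℂ) (F := ℝ) (volume : Measure ℂ)
    (fun y : ℝ => (Iic ρ).indicator (fun y => y) y)
  have e1 : ∫ z in closedBall (0:ℂ) ρ, ‖z‖ = ∫ z : ℂ, (Iic ρ).indicator (fun y : ℝ => y) ‖z‖ := by
    rw [← integral_indicator isClosed_closedBall.measurableSet]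
    congr 1
    ext z
    by_cases hz : z ∈ closedBall (0:ℂ) ρ
    · have : ‖z‖ ∈ Iic ρ := by simpa using hz
      rw [indicator_of_mem hz, indicator_of_mem this]
    · have : ‖z‖ ∉ Iic ρ := by simpa using hz
      rw [indicator_of_notMem hz, indicator_of_notMem this]
  rw [e1, h]
  have e2 : volume.real (ball (0:ℂ) 1) = π := by
    rw [Measure.real, Complex.volume_ball]
    simp
  have e3 : ∫ y in Ioi (0:ℝ), y ^ (Module.finrank ℝ ℂ - 1) • (Iic ρ).indicator (fun y : ℝ => y) y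
      = ρ ^ 3 / 3 := by
    have e4 : ∀ y : ℝ, y ^ (Module.finrank ℝ ℂ - 1) • (Iic ρ).indicator (fun y : ℝ => y) y
        = (Iic ρ).indicator (fun y : ℝ => y ^ 2) y := by
      intro y
      rw [Complex.finrank_real_complex]
      by_cases hy : y ∈ Iic ρ
      · rw [indicator_of_mem hy, indicator_of_mem hy]; simp [pow_two]
      · rw [indicator_of_notMem hy, indicator_of_notMem hy]; simp
    simp_rw [e4]
    rw [setIntegral_indicator measurableSet_Iic, Ioi_inter_Iic,
      ← intervalIntegral.integral_of_le hρ, integral_pow]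
    ring
  rw [e3, e2, Complex.finrank_real_complex]
  simp only [nsmul_eq_mul, smul_eq_mul]
  push_cast
  ring

/-- The `L¹` norm of a linear function on a disc controls its coefficients. -/
theorem lin_lower (A B a : ℂ) {ρ : ℝ} (hρ : 0 < ρ) :
    π * ρ ^ 2 * (‖A‖ + ρ * ‖B‖) ≤ 3 * ∫ z in closedBall a ρ, ‖A + B * (z - a)‖ := by
  rw [shift_integral a ρ (fun z => ‖A + B * z‖)]
  set K := closedBall (0:ℂ) ρ with hK
  have hKc : IsCompact K := isCompact_closedBall 0 ρ
  have i1 : IntegrableOn (fun z : ℂ => ‖A + B * z‖) K :=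
    (Continuous.continuousOn (by fun_prop)).integrableOn_compact hKc
  have i2 : IntegrableOn (fun z : ℂ => ‖A + B * (-z)‖) K :=
    (Continuous.continuousOn (by fun_prop)).integrableOn_compact hKc
  have hneg := neg_integral ρ (fun z => ‖A + B * z‖)
  set J := ∫ z in K, ‖A + B * z‖ with hJ
  have hsum : ∫ z in K, (‖A + B * z‖ + ‖A + B * (-z)‖) = 2 * J := by
    rw [integral_add i1 i2, hneg]; ring
  have h1 : π * ρ ^ 2 * (2 * ‖A‖) ≤ 2 * J := by
    rw [← hsum, ← vol_closedBall 0 hρ.le, ← smul_eq_mul, ← setIntegral_const]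
    apply setIntegral_mono
    · exact integrableOn_const (measure_closedBall_lt_top).ne
    · exact i1.add i2
    · intro z
      have : ‖(A + B * z) + (A + B * (-z))‖ ≤ ‖A + B * z‖ + ‖A + B * (-z)‖ := norm_add_le _ _
      have e : (A + B * z) + (A + B * (-z)) = 2 * A := by ring
      rw [e, norm_mul] at this
      simpa using this
  have h2 : 2 * ‖B‖ * (2 * π * ρ ^ 3 / 3) ≤ 2 * J := by
    rw [← hsum, ← integral_norm_disc hρ.le, ← integral_const_mul]
    apply setIntegral_mono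
    · exact (Continuous.continuousOn (by fun_prop)).integrableOn_compact hKc
    · exact i1.add i2
    · intro z
      have : ‖(A + B * z) - (A + B * (-z))‖ ≤ ‖A + B * z‖ + ‖A + B * (-z)‖ := norm_sub_le _ _
      have e : (A + B * z) - (A + B * (-z)) = 2 * (B * z) := by ring
      rw [e, norm_mul, norm_mul] at this
      simp only [Complex.norm_ofNat] at this
      nlinarith [this]
  have hJ0 : 0 ≤ J := by
    rw [hJ]; exact integral_nonneg fun z => norm_nonneg _
  have e1 : π * ρ ^ 2 * (‖A‖ + ρ * ‖B‖) = π * ρ ^ 2 * (2 * ‖A‖) / 2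
      + 2 * ‖B‖ * (2 * π * ρ ^ 3 / 3) * (3 / 4) := by ring
  rw [e1]
  linarith

/-- The third order Taylor remainder of the Cauchy kernel. -/
theorem far_kernel (w z a : ℂ) {ρ : ℝ} (hρ : 0 < ρ) (hz : ‖z - a‖ ≤ ρ) (hw : 2 * ρ < ‖w - a‖) :
    ‖1 / (w - z) - 1 / (w - a) - (z - a) / (w - a) ^ 2‖
      ≤ 1 / (4 * ρ) * (2 * ρ / max (2 * ρ) ‖w - a‖) ^ 3 := by
  have hwa : 0 < ‖w - a‖ := by linarith
  have hwa' : w - a ≠ 0 := norm_pos_iff.1 hwa
  have hwz : ‖w - a‖ / 2 ≤ ‖w - z‖ := by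
    have : ‖w - a‖ ≤ ‖w - z‖ + ‖z - a‖ := by
      have := norm_add_le (w - z) (z - a)
      rwa [sub_add_sub_cancel] at this
    linarith
  have hwz0 : 0 < ‖w - z‖ := by linarith
  have hwz' : w - z ≠ 0 := norm_pos_iff.1 hwz0
  have e : 1 / (w - z) - 1 / (w - a) - (z - a) / (w - a) ^ 2
      = (z - a) ^ 2 / ((w - a) ^ 2 * (w - z)) := by
    field_simp
    ring
  rw [e, norm_div, norm_pow, norm_mul, norm_pow, max_eq_right hw.le]
  calc ‖z - a‖ ^ 2 / (‖w - a‖ ^ 2 * ‖w - z‖) ≤ ρ ^ 2 / (‖w - a‖ ^ 2 * (‖w - a‖ / 2)) := by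
        gcongr
    _ = 1 / (4 * ρ) * (2 * ρ / ‖w - a‖) ^ 3 := by
        field_simp
        ring

end RankOneC
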